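import Pool.Agent.E8helper66.GB.Stm

set_option autoImplicit false

/-! GB-15 (project GB of helper66): the two growth steps, from the density estimate and the local densities. -/

namespace Pool.Agent.E8helper98.GB

open Finset Pool.Agent.E8helper66.GB
open Pool.Agent.H373R2.T7 (lamz pz Vz)
open Pool.Agent.R521.GG (R dg)

/-- the part of the von Mangoldt function away from odd primes -/
noncomputable def gg (m : ℕ) : ℝ := if m.Prime ∧ Odd m then 0 else ArithmeticFunction.vonMangoldt m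

lemma gg_nonneg (m : ℕ) : 0 ≤ gg m := by
  unfold gg
  split_ifs
  · exact le_rfl
  · exact ArithmeticFunction.vonMangoldt_nonneg

lemma gg_zero : gg 0 = 0 := by
  unfold gg
  simp

lemma gg_sum (n : ℕ) (hn : 2 ≤ n) : ∑ m ∈ Icc 1 (2 * n), gg m ≤ 7 * (Real.sqrt n * Real.log n) := by
  have hn2 : (2 : ℝ) ≤ n := by exact_mod_cast hn
  have hlog2 : Real.log 2 ≤ Real.log n := Real.log_le_log (by norm_num) hn2
  have hlog2' : 0 < Real.log 2 := Real.log_pos (by norm_num)
  have hs1 : 1 ≤ Real.sqrt n := by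
    rw [Real.one_le_sqrt]
    linarith
  have h1 : ∑ m ∈ Icc 1 (2 * n), gg m ≤
      ∑ m ∈ Icc 1 (2 * n), ((if ¬ m.Prime then ArithmeticFunction.vonMangoldt m else 0) + (if m = 2 then Real.log 2 else 0)) := by
    apply sum_le_sum
    intro m _
    unfold gg
    by_cases hp : m.Prime
    · rcases hp.eq_two_or_odd' with h | h
      · subst h
        have : ArithmeticFunction.vonMangoldt 2 = Real.log 2 := by
          rw [ArithmeticFunction.vonMangoldt_apply_prime Nat.prime_two]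
          norm_num
        simp only [Nat.prime_two, not_true_eq_false, if_false, if_true, this]
        split_ifs <;> linarith
      · rw [if_pos ⟨hp, h⟩, if_neg (by simpa using hp)]
        split_ifs <;> linarith
    · rw [if_neg (by tauto), if_pos hp]
      split_ifs <;> linarith
  refine h1.trans ?_
  rw [sum_add_distrib, ← sum_filter, Finset.sum_ite_eq']
  have h2 : ∑ m ∈ Icc 1 (2 * n) with ¬ m.Prime, ArithmeticFunction.vonMangoldt m =
      Chebyshev.psi ((2 * n : ℕ) : ℝ) - Chebyshev.theta ((2 * n : ℕ) : ℝ) := by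
    rw [Chebyshev.psi_sub_theta_eq_sum_not_prime, Nat.floor_natCast]
    rfl
  rw [h2]
  have h3 := Chebyshev.psi_sub_theta_le (x := ((2 * n : ℕ) : ℝ)) (by push_cast; linarith)
  rw [if_pos (by rw [mem_Icc]; omega)]
  have h4 : Real.sqrt ((2 * n : ℕ) : ℝ) ≤ 3 / 2 * Real.sqrt n := by
    rw [Real.sqrt_le_left (by positivity), mul_pow, Real.sq_sqrt (by positivity)]
    push_cast
    linarith
  have h5 : Real.log ((2 * n : ℕ) : ℝ) ≤ 2 * Real.log n := by
    push_cast
    rw [Real.log_mul (by norm_num) (by positivity)]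
    linarith
  have h6 : 2 * Real.sqrt ((2 * n : ℕ) : ℝ) * Real.log ((2 * n : ℕ) : ℝ) ≤ 2 * (3 / 2 * Real.sqrt n) * (2 * Real.log n) := by
    apply mul_le_mul _ h5 _ (by positivity)
    · linarith
    · apply Real.log_nonneg
      push_cast
      linarith
  have h7 : Real.log 2 ≤ Real.sqrt n * Real.log n := by nlinarith
  nlinarith

lemma vm_le (n m : ℕ) (hn : 2 ≤ n) (hm : m ≤ 2 * n) : ArithmeticFunction.vonMangoldt m ≤ 2 * Real.log n := by
  have hn2 : (2 : ℝ) ≤ n := by exact_mod_cast hn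
  have hlog2 : Real.log 2 ≤ Real.log n := Real.log_le_log (by norm_num) hn2
  have hlog2' : 0 < Real.log 2 := Real.log_pos (by norm_num)
  rcases Nat.eq_zero_or_pos m with h | h
  · subst h
    simp
    linarith
  · refine ArithmeticFunction.vonMangoldt_le_log.trans ?_
    have h1 : Real.log (m : ℝ) ≤ Real.log ((2 * n : ℕ) : ℝ) := by
      apply Real.log_le_log
      · exact_mod_cast h
      · exact_mod_cast hm
    refine h1.trans ?_
    push_cast
    rw [Real.log_mul (by norm_num) (by positivity)]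
    linarith

lemma dist_le' (n a b : ℕ) (ha : a ≤ n) (hb : b ≤ n) : Nat.dist a b ≤ n := by
  unfold Nat.dist
  omega

/-- no edges: the weight is small -/
lemma noedge_pt (n a b : ℕ) (hn : 2 ≤ n) (ha : a ≤ n) (hb : b ≤ n) (h : ¬ R a b) :
    KL a b ≤ 2 * Real.log n * (gg (a + b) + gg (Nat.dist a b)) := by
  unfold KL
  have hv1 : ArithmeticFunction.vonMangoldt (a + b) ≤ 2 * Real.log n := vm_le n _ hn (by omega)
  have hv2 : ArithmeticFunction.vonMangoldt (Nat.dist a b) ≤ 2 * Real.log n :=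
    vm_le n _ hn (by have := dist_le' n a b ha hb; omega)
  have h1 : 0 ≤ (ArithmeticFunction.vonMangoldt (a + b) : ℝ) := ArithmeticFunction.vonMangoldt_nonneg
  have h2 : 0 ≤ (ArithmeticFunction.vonMangoldt (Nat.dist a b) : ℝ) := ArithmeticFunction.vonMangoldt_nonneg
  have g1 := gg_nonneg (a + b)
  have g2 := gg_nonneg (Nat.dist a b)
  have hL : 0 ≤ Real.log n := by linarith
  by_cases hp : (a + b).Prime ∧ Odd (a + b)
  · have hq : ¬ ((Nat.dist a b).Prime ∧ Odd (Nat.dist a b)) := fun hq => h ⟨hp, hq⟩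
    have : gg (Nat.dist a b) = ArithmeticFunction.vonMangoldt (Nat.dist a b) := by
      unfold gg
      rw [if_neg hq]
    rw [← this] at *
    nlinarith
  · have : gg (a + b) = ArithmeticFunction.vonMangoldt (a + b) := by
      unfold gg
      rw [if_neg hp]
    rw [← this] at *
    nlinarith

lemma sum_gg_add (n a : ℕ) (ha : a ≤ n) (B : Finset ℕ) (hB : B ⊆ Icc 1 n) :
    ∑ b ∈ B, gg (a + b) ≤ ∑ m ∈ Icc 1 (2 * n), gg m := by
  have : ∑ b ∈ B, gg (a + b) = ∑ m ∈ B.image (fun b => a + b), gg m := by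
    rw [sum_image]
    intro x _ y _ h
    simpa using h
  rw [this]
  apply sum_le_sum_of_subset_of_nonneg
  · intro m hm
    rw [mem_image] at hm
    obtain ⟨b, hb, rfl⟩ := hm
    have := hB hb
    rw [mem_Icc] at this ⊢
    omega
  · intro i _ _
    exact gg_nonneg i

lemma sum_gg_dist (n a : ℕ) (ha : a ≤ n) (B : Finset ℕ) (hB : B ⊆ Icc 1 n) :
    ∑ b ∈ B, gg (Nat.dist a b) ≤ 2 * ∑ m ∈ Icc 1 (2 * n), gg m := by
  have h1 : ∑ b ∈ B, gg (Nat.dist a b) = ∑ b ∈ B.filter (fun b => b < a), gg (Nat.dist a b) +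
      ∑ b ∈ B.filter (fun b => ¬ b < a), gg (Nat.dist a b) := by
    rw [sum_filter_add_sum_filter_not]
  have h2 : ∑ b ∈ B.filter (fun b => b < a), gg (Nat.dist a b) ≤ ∑ m ∈ Icc 1 (2 * n), gg m := by
    have e : ∑ b ∈ B.filter (fun b => b < a), gg (Nat.dist a b) =
        ∑ m ∈ (B.filter (fun b => b < a)).image (fun b => a - b), gg m := by
      rw [sum_image]
      · apply sum_congr rfl
        intro b hb
        rw [mem_filter] at hb
        congr 1
        unfold Nat.dist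
        omega
      · intro x hx y hy h
        rw [mem_coe, mem_filter] at hx hy
        dsimp only at h
        omega
    rw [e]
    apply sum_le_sum_of_subset_of_nonneg
    · intro m hm
      rw [mem_image] at hm
      obtain ⟨b, hb, rfl⟩ := hm
      rw [mem_filter] at hb
      have := hB hb.1
      rw [mem_Icc] at this ⊢
      omega
    · intro i _ _
      exact gg_nonneg i
  have h3 : ∑ b ∈ B.filter (fun b => ¬ b < a), gg (Nat.dist a b) ≤ ∑ m ∈ Icc 1 (2 * n), gg m := by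
    have e : ∑ b ∈ B.filter (fun b => ¬ b < a), gg (Nat.dist a b) =
        ∑ m ∈ (B.filter (fun b => ¬ b < a)).image (fun b => b - a), gg m := by
      rw [sum_image]
      · apply sum_congr rfl
        intro b hb
        rw [mem_filter] at hb
        congr 1
        unfold Nat.dist
        omega
      · intro x hx y hy h
        rw [mem_coe, mem_filter] at hx hy
        dsimp only at h
        omega
    rw [e]
    have e2 : ∑ m ∈ (B.filter (fun b => ¬ b < a)).image (fun b => b - a), gg m ≤ ∑ m ∈ Icc 0 (2 * n), gg m := by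
      apply sum_le_sum_of_subset_of_nonneg
      · intro m hm
        rw [mem_image] at hm
        obtain ⟨b, hb, rfl⟩ := hm
        rw [mem_filter] at hb
        have := hB hb.1
        rw [mem_Icc] at this ⊢
        omega
      · intro i _ _
        exact gg_nonneg i
    refine e2.trans (le_of_eq ?_)
    have e3 : Icc 0 (2 * n) = insert 0 (Icc 1 (2 * n)) := by
      ext x
      simp only [mem_insert, mem_Icc]
      omega
    rw [e3, sum_insert (by simp), gg_zero, zero_add]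
  linarith

lemma ev (P : ℕ → Prop) (h : ∀ᶠ n : ℕ in Filter.atTop, P n) : ∃ n₀ : ℕ, ∀ n : ℕ, n₀ ≤ n → P n := by
  rw [Filter.eventually_atTop] at h
  exact h

lemma log_tendsto : Filter.Tendsto (fun N : ℕ => Real.log (N : ℝ)) Filter.atTop Filter.atTop :=
  Real.tendsto_log_atTop.comp (tendsto_natCast_atTop_atTop (R := ℝ))

lemma ev_log (c : ℝ) : ∃ N0 : ℕ, ∀ N : ℕ, N0 ≤ N → c ≤ Real.log N :=
  ev _ (log_tendsto.eventually (Filter.eventually_ge_atTop c))

lemma ev_pow (U : ℕ) : ∃ N0 : ℕ, ∀ N : ℕ, N0 ≤ N → 42 * Real.log N ^ U ≤ Real.sqrt N := by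
  apply ev
  have h1 := isLittleO_log_rpow_rpow_atTop (s := 1 / 2) (U : ℝ) (by norm_num : (0 : ℝ) < 1 / 2)
  have h2 := h1.bound (show (0 : ℝ) < 1 / 42 by norm_num)
  have h3 := (tendsto_natCast_atTop_atTop (R := ℝ)).eventually h2
  filter_upwards [h3, log_tendsto.eventually_ge_atTop 0] with N h4 h5
  rw [Real.norm_of_nonneg (by positivity), Real.norm_of_nonneg (by positivity), Real.rpow_natCast,
    ← Real.sqrt_eq_rpow] at h4
  linarith

/-- no edges between two sets: the total weight is small -/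
lemma noedge (U : ℕ) : ∃ n₀ : ℕ, ∀ n : ℕ, n₀ ≤ n → ∀ A ⊆ Icc 1 n, ∀ B ⊆ Icc 1 n, (∀ a ∈ A, ∀ b ∈ B, ¬ R a b) →
    ∑ a ∈ A, ∑ b ∈ B, KL a b ≤ (n : ℝ) ^ 2 / Real.log n ^ U := by
  obtain ⟨m1, h1⟩ := ev_pow (U + 2)
  obtain ⟨m2, h2⟩ := ev_log 1
  refine ⟨m1 + m2 + 2, fun n hn A hA B hB hR => ?_⟩
  have hn2 : 2 ≤ n := by omega
  have hn2' : (2 : ℝ) ≤ n := by exact_mod_cast hn2
  have hL : 1 ≤ Real.log n := h2 n (by omega)
  have hP := h1 n (by omega)
  have hG := gg_sum n hn2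
  set G := ∑ m ∈ Icc 1 (2 * n), gg m with hGd
  have hb : ∀ a ∈ A, ∑ b ∈ B, KL a b ≤ 2 * Real.log n * (3 * G) := by
    intro a ha
    have ha' := hA ha
    rw [mem_Icc] at ha'
    have e1 : ∑ b ∈ B, KL a b ≤ ∑ b ∈ B, 2 * Real.log n * (gg (a + b) + gg (Nat.dist a b)) := by
      apply sum_le_sum
      intro b hb
      have hb' := hB hb
      rw [mem_Icc] at hb'
      exact noedge_pt n a b hn2 ha'.2 hb'.2 (hR a ha b hb)
    refine e1.trans ?_
    rw [← mul_sum, sum_add_distrib]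
    have e2 := sum_gg_add n a ha'.2 B hB
    have e3 := sum_gg_dist n a ha'.2 B hB
    apply mul_le_mul_of_nonneg_left _ (by linarith)
    linarith
  have hc : (A.card : ℝ) ≤ n := by
    have := card_le_card hA
    rw [Nat.card_Icc] at this
    have h' : A.card ≤ n := by omega
    exact_mod_cast h'
  have hG0 : 0 ≤ G := sum_nonneg (fun i _ => gg_nonneg i)
  calc ∑ a ∈ A, ∑ b ∈ B, KL a b ≤ ∑ a ∈ A, 2 * Real.log n * (3 * G) := sum_le_sum hb
    _ = A.card * (2 * Real.log n * (3 * G)) := by rw [sum_const, nsmul_eq_mul]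
    _ ≤ n * (2 * Real.log n * (3 * G)) := by
        apply mul_le_mul_of_nonneg_right hc
        have : 0 ≤ Real.log n := by linarith
        positivity
    _ ≤ n * (2 * Real.log n * (3 * (7 * (Real.sqrt n * Real.log n)))) := by
        have : 0 ≤ Real.log n := by linarith
        gcongr
    _ = n * Real.sqrt n * (42 * Real.log n ^ 2) := by ring
    _ ≤ (n : ℝ) ^ 2 / Real.log n ^ U := by
        have hLU : 0 < Real.log n ^ U := by positivity
        rw [le_div_iff₀ hLU]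
        have hs : Real.sqrt n * Real.sqrt n = n := Real.mul_self_sqrt (by linarith)
        have hs0 : 0 ≤ Real.sqrt n := Real.sqrt_nonneg _
        calc (n : ℝ) * Real.sqrt n * (42 * Real.log n ^ 2) * Real.log n ^ U
            = n * Real.sqrt n * (42 * Real.log n ^ (U + 2)) := by ring
          _ ≤ n * Real.sqrt n * Real.sqrt n := by gcongr
          _ = n ^ 2 := by rw [mul_assoc, hs]; ring

lemma lamz_le_log (K : ℕ) : ∃ N0 : ℕ, ∀ N : ℕ, N0 ≤ N → ∀ z : ℕ, 1 ≤ z → (z : ℝ) ≤ Real.log N ^ K → ∀ y : ℕ,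
    0 ≤ lamz z y ∧ lamz z y ≤ Real.log N := by
  obtain ⟨m1, h1⟩ := Pool.Agent.H373R2.T7.Vz_inv_small K
  refine ⟨max m1 1, fun N hN z hz1 hz2 y => ⟨Pool.Agent.H373R2.T7.lamz_nonneg z y, ?_⟩⟩
  have hV := h1 N (le_trans (le_max_left _ _) hN) z hz1 hz2
  have hV0 := Pool.Agent.H373R2.T7.Vz_pos z
  unfold lamz
  split_ifs
  · exact hV
  · exact (inv_nonneg.2 hV0.le).trans hV

/-- the choice of `z` together with all the estimates needed -/
lemma setup (hE : S_EST) (hL : S_LOC) (U : ℕ) : ∃ c₀ : ℝ, 0 < c₀ ∧ ∃ n₀ : ℕ, ∀ n : ℕ, n₀ ≤ n → ∃ z : ℕ,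
    (∀ a b : ℕ, 0 ≤ KZ z a b ∧ KZ z a b ≤ Real.log n ^ 2) ∧
    (∀ a ∈ Icc 1 n, c₀ * n ≤ ∑ b ∈ Icc 1 n, KZ z a b) ∧
    (∀ a ∈ Icc 1 n, ∀ c ∈ Icc 1 n, Same a c → c₀ * n ≤ ∑ b ∈ Icc 1 n, KZ z a b * KZ z c b) ∧
    (∀ A ⊆ Icc 1 n, ∀ B ⊆ Icc 1 n, (∀ a ∈ A, ∀ b ∈ B, ¬ R a b) →
      ∑ a ∈ A, ∑ b ∈ B, KZ z a b ≤ 2 * ((n : ℝ) ^ 2 / Real.log n ^ U)) := by
  obtain ⟨c₀, hc₀, hL⟩ := hL
  obtain ⟨B, hB⟩ := hE U
  obtain ⟨m1, h1⟩ := hB (B + 1)
  obtain ⟨m2, h2⟩ := hL (B + 1)
  obtain ⟨m3, h3⟩ := noedge U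
  obtain ⟨m4, h4⟩ := lamz_le_log (B + 1)
  obtain ⟨m5, h5⟩ := ev_log 2
  refine ⟨c₀, hc₀, m1 + m2 + m3 + m4 + m5 + 2, fun n hn => ?_⟩
  have hlog : 2 ≤ Real.log n := h5 n (by omega)
  have hlogB : 1 ≤ Real.log n ^ B := one_le_pow₀ (by linarith)
  have hz1 : Real.log n ^ B ≤ (⌈Real.log n ^ B⌉₊ : ℝ) := Nat.le_ceil _
  have hz2 : (⌈Real.log n ^ B⌉₊ : ℝ) ≤ Real.log n ^ (B + 1) := by
    have := (Nat.ceil_lt_add_one (show 0 ≤ Real.log n ^ B by linarith)).le
    rw [pow_succ]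
    nlinarith
  set z := ⌈Real.log n ^ B⌉₊ with hz
  have hz0 : 1 ≤ z := by
    have : (1 : ℝ) ≤ z := hlogB.trans hz1
    exact_mod_cast this
  have hl := h4 n (by omega) z hz0 hz2
  refine ⟨z, ?_, (h2 n (by omega) z hz0 hz2).1, (h2 n (by omega) z hz0 hz2).2, ?_⟩
  · intro a b
    unfold KZ
    have e1 := hl (a + b)
    have e2 := hl (Nat.dist a b)
    refine ⟨mul_nonneg e1.1 e2.1, ?_⟩
    rw [sq]
    exact mul_le_mul e1.2 e2.2 e2.1 (by linarith)
  · intro A hA B' hB' hR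
    have e1 := h1 n (by omega) z hz1 hz2 A hA B' hB'
    have e2 := h3 n (by omega) A hA B' hB' hR
    have e3 : ∑ a ∈ A, ∑ b ∈ B', KZ z a b = ∑ a ∈ A, ∑ b ∈ B', KL a b - ∑ a ∈ A, ∑ b ∈ B', (KL a b - KZ z a b) := by
      rw [← sum_sub_distrib]
      apply sum_congr rfl
      intro a _
      rw [← sum_sub_distrib]
      apply sum_congr rfl
      intro b _
      ring
    rw [e3]
    have e4 := (abs_le.1 e1).1
    linarith

open Classical in
theorem t_STEP1 (hE : S_EST) (hL : S_LOC) : S_STEP1 := by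
  intro U
  obtain ⟨c₀, hc₀, m1, h1⟩ := setup hE hL (U + 1)
  obtain ⟨m2, h2⟩ := ev_log (max 1 (5 / c₀))
  refine ⟨3, m1 + m2 + 2, fun n hn P hP Z hZ hPc hZc => ?_⟩
  obtain ⟨z, k1, k2, -, k4⟩ := h1 n (by omega)
  have hl := h2 n (by omega)
  have hl1 : 1 ≤ Real.log n := (le_max_left _ _).trans hl
  have hl2 : 5 / c₀ ≤ Real.log n := (le_max_right _ _).trans hl
  have hl0 : 0 < Real.log n := by linarith
  have hn0 : (0 : ℝ) < n := by
    have : 0 < n := by omega
    exact_mod_cast this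
  by_contra hcon
  rw [not_le] at hcon
  have hPpos : 0 < (P.card : ℝ) := lt_of_lt_of_le (by positivity) hPc
  set Ad := (Icc 1 n \ Z).filter (fun v => ∃ p ∈ P, R p v) with hAd
  set V := (Icc 1 n \ Z).filter (fun v => ¬ ∃ p ∈ P, R p v) with hV
  have hsplit : ∀ p, ∑ b ∈ Icc 1 n, KZ z p b = ∑ b ∈ Z, KZ z p b + ∑ b ∈ Ad, KZ z p b + ∑ b ∈ V, KZ z p b := by
    intro p
    rw [hAd, hV, add_assoc, sum_filter_add_sum_filter_not, add_comm, sum_sdiff hZ]
  have hV' := k4 P hP V (by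
    rw [hV]
    exact (filter_subset _ _).trans sdiff_subset) (by
    intro a ha b hb hab
    rw [hV, mem_filter] at hb
    exact hb.2 ⟨a, ha, hab⟩)
  have hbd : ∀ (S : Finset ℕ) (p : ℕ), ∑ b ∈ S, KZ z p b ≤ S.card * Real.log n ^ 2 := by
    intro S p
    calc ∑ b ∈ S, KZ z p b ≤ ∑ b ∈ S, Real.log n ^ 2 := sum_le_sum (fun b _ => (k1 p b).2)
      _ = _ := by rw [sum_const, nsmul_eq_mul]
  have hmain : P.card * (c₀ * n) ≤ P.card * ((Z.card : ℝ) * Real.log n ^ 2 + Ad.card * Real.log n ^ 2) +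
      2 * ((n : ℝ) ^ 2 / Real.log n ^ (U + 1)) := by
    calc P.card * (c₀ * n) = ∑ p ∈ P, c₀ * n := by rw [sum_const, nsmul_eq_mul]
      _ ≤ ∑ p ∈ P, ∑ b ∈ Icc 1 n, KZ z p b := sum_le_sum (fun p hp => k2 p (hP hp))
      _ = ∑ p ∈ P, (∑ b ∈ Z, KZ z p b + ∑ b ∈ Ad, KZ z p b) + ∑ p ∈ P, ∑ b ∈ V, KZ z p b := by
          rw [← sum_add_distrib]
          exact sum_congr rfl (fun p _ => hsplit p)
      _ ≤ ∑ p ∈ P, ((Z.card : ℝ) * Real.log n ^ 2 + Ad.card * Real.log n ^ 2) + 2 * ((n : ℝ) ^ 2 / Real.log n ^ (U + 1)) := by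
          apply add_le_add _ hV'
          exact sum_le_sum (fun p _ => add_le_add (hbd Z p) (hbd Ad p))
      _ = _ := by rw [sum_const, nsmul_eq_mul]
  -- bounds for the three terms
  have b1 : (Z.card : ℝ) * Real.log n ^ 2 ≤ n / Real.log n := by
    calc (Z.card : ℝ) * Real.log n ^ 2 ≤ (n / Real.log n ^ 3) * Real.log n ^ 2 := by gcongr
      _ = n / Real.log n := by field_simp
  have b2 : (Ad.card : ℝ) * Real.log n ^ 2 ≤ n / Real.log n := by
    calc (Ad.card : ℝ) * Real.log n ^ 2 ≤ (n / Real.log n ^ 5) * Real.log n ^ 2 := by gcongr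
      _ = (n / Real.log n) * (1 / Real.log n ^ 2) := by field_simp
      _ ≤ (n / Real.log n) * 1 := by
          gcongr
          rw [div_le_one (by positivity)]
          exact one_le_pow₀ hl1
      _ = _ := mul_one _
  have b3 : (n : ℝ) ^ 2 / Real.log n ^ (U + 1) ≤ P.card * (n / Real.log n) := by
    calc (n : ℝ) ^ 2 / Real.log n ^ (U + 1) = (n / Real.log n ^ U) * (n / Real.log n) := by
          field_simp
          ring
      _ ≤ _ := by gcongr
  have b4 : (P.card : ℝ) * (c₀ * n) ≤ P.card * (4 * (n / Real.log n)) := by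
    have := mul_le_mul_of_nonneg_left (add_le_add b1 b2) hPpos.le
    nlinarith
  have b5 : c₀ * n ≤ 4 * (n / Real.log n) := le_of_mul_le_mul_left b4 hPpos
  have b6 : c₀ * Real.log n ≤ 4 := by
    have : c₀ * n * Real.log n ≤ 4 * n := by
      have := mul_le_mul_of_nonneg_right b5 hl0.le
      have e : 4 * ((n : ℝ) / Real.log n) * Real.log n = 4 * n := by field_simp
      linarith
    nlinarith
  have b7 : 5 ≤ c₀ * Real.log n := by
    rw [div_le_iff₀ hc₀] at hl2
    linarith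
  linarith

open Classical in
theorem t_STEP2 (hE : S_EST) (hL : S_LOC) : S_STEP2 := by
  intro U
  obtain ⟨c₀, hc₀, m1, h1⟩ := setup hE hL (U + 3)
  obtain ⟨m2, h2⟩ := ev_log (max 1 (6 / c₀))
  refine ⟨5, m1 + m2 + 2, fun n hn P hP Q hQ Z hZ hSame hPc hQc hZc => ?_⟩
  obtain ⟨z, k1, -, k3, k4⟩ := h1 n (by omega)
  have hl := h2 n (by omega)
  have hl1 : 1 ≤ Real.log n := (le_max_left _ _).trans hl
  have hl2 : 6 / c₀ ≤ Real.log n := (le_max_right _ _).trans hl
  have hl0 : 0 < Real.log n := by linarith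
  have hn0 : (0 : ℝ) < n := by
    have : 0 < n := by omega
    exact_mod_cast this
  by_contra hcon
  have hPpos : 0 < (P.card : ℝ) := lt_of_lt_of_le (by positivity) hPc
  have hQpos : 0 < (Q.card : ℝ) := lt_of_lt_of_le (by positivity) hQc
  set V1 := (Icc 1 n \ Z).filter (fun v => ¬ ∃ p ∈ P, R p v) with hV1
  set V2 := (Icc 1 n \ Z).filter (fun v => ∃ p ∈ P, R p v) with hV2
  have hV2n : ∀ q ∈ Q, ∀ v ∈ V2, ¬ R q v := by
    intro q hq v hv hqv
    rw [hV2, mem_filter] at hv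
    obtain ⟨hv, p, hp, hpv⟩ := hv
    exact hcon ⟨v, hv, p, hp, q, hq, hpv, hqv⟩
  have hsplit : ∀ f : ℕ → ℝ, ∑ b ∈ Icc 1 n, f b = ∑ b ∈ Z, f b + ∑ b ∈ V1, f b + ∑ b ∈ V2, f b := by
    intro f
    rw [hV1, hV2, add_assoc, add_comm (∑ b ∈ _ with _, f b), sum_filter_add_sum_filter_not, add_comm, sum_sdiff hZ]
  have hV1' := k4 P hP V1 (by
    rw [hV1]
    exact (filter_subset _ _).trans sdiff_subset) (by
    intro a ha b hb hab
    rw [hV1, mem_filter] at hb
    exact hb.2 ⟨a, ha, hab⟩)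
  have hV2' := k4 Q hQ V2 (by
    rw [hV2]
    exact (filter_subset _ _).trans sdiff_subset) hV2n
  set L := Real.log n with hLd
  set D := 2 * ((n : ℝ) ^ 2 / L ^ (U + 3)) with hD
  have hmain : P.card * (Q.card * (c₀ * n)) ≤ P.card * (Q.card * ((Z.card : ℝ) * L ^ 4)) + Q.card * (L ^ 2 * D) +
      P.card * (L ^ 2 * D) := by
    have t1 : ∑ p ∈ P, ∑ q ∈ Q, ∑ b ∈ Z, KZ z p b * KZ z q b ≤ P.card * (Q.card * ((Z.card : ℝ) * L ^ 4)) := by
      calc ∑ p ∈ P, ∑ q ∈ Q, ∑ b ∈ Z, KZ z p b * KZ z q b ≤ ∑ p ∈ P, ∑ q ∈ Q, ∑ b ∈ Z, L ^ 4 := by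
            refine sum_le_sum (fun p _ => sum_le_sum (fun q _ => sum_le_sum (fun b _ => ?_)))
            have := mul_le_mul (k1 p b).2 (k1 q b).2 (k1 q b).1 (by positivity)
            refine this.trans (le_of_eq ?_)
            ring
        _ = _ := by simp only [sum_const, nsmul_eq_mul]
    have t2 : ∑ p ∈ P, ∑ q ∈ Q, ∑ b ∈ V1, KZ z p b * KZ z q b ≤ Q.card * (L ^ 2 * D) := by
      rw [sum_comm]
      calc ∑ q ∈ Q, ∑ p ∈ P, ∑ b ∈ V1, KZ z p b * KZ z q b ≤ ∑ q ∈ Q, ∑ p ∈ P, ∑ b ∈ V1, L ^ 2 * KZ z p b := by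
            refine sum_le_sum (fun q _ => sum_le_sum (fun p _ => sum_le_sum (fun b _ => ?_)))
            rw [mul_comm]
            exact mul_le_mul_of_nonneg_right (k1 q b).2 (k1 p b).1
        _ = ∑ q ∈ Q, L ^ 2 * ∑ p ∈ P, ∑ b ∈ V1, KZ z p b := by
            apply sum_congr rfl
            intro q _
            rw [mul_sum]
            apply sum_congr rfl
            intro p _
            rw [mul_sum]
        _ ≤ ∑ q ∈ Q, L ^ 2 * D := sum_le_sum (fun q _ => mul_le_mul_of_nonneg_left hV1' (by positivity))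
        _ = _ := by rw [sum_const, nsmul_eq_mul]
    have t3 : ∑ p ∈ P, ∑ q ∈ Q, ∑ b ∈ V2, KZ z p b * KZ z q b ≤ P.card * (L ^ 2 * D) := by
      calc ∑ p ∈ P, ∑ q ∈ Q, ∑ b ∈ V2, KZ z p b * KZ z q b ≤ ∑ p ∈ P, ∑ q ∈ Q, ∑ b ∈ V2, L ^ 2 * KZ z q b := by
            refine sum_le_sum (fun p _ => sum_le_sum (fun q _ => sum_le_sum (fun b _ => ?_)))
            exact mul_le_mul_of_nonneg_right (k1 p b).2 (k1 q b).1
        _ = ∑ p ∈ P, L ^ 2 * ∑ q ∈ Q, ∑ b ∈ V2, KZ z q b := by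
            apply sum_congr rfl
            intro q _
            rw [mul_sum]
            apply sum_congr rfl
            intro p _
            rw [mul_sum]
        _ ≤ ∑ p ∈ P, L ^ 2 * D := sum_le_sum (fun q _ => mul_le_mul_of_nonneg_left hV2' (by positivity))
        _ = _ := by rw [sum_const, nsmul_eq_mul]
    calc P.card * (Q.card * (c₀ * n)) = ∑ p ∈ P, ∑ q ∈ Q, c₀ * n := by simp only [sum_const, nsmul_eq_mul]
      _ ≤ ∑ p ∈ P, ∑ q ∈ Q, ∑ b ∈ Icc 1 n, KZ z p b * KZ z q b :=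
          sum_le_sum (fun p hp => sum_le_sum (fun q hq => k3 p (hP hp) q (hQ hq) (hSame p hp q hq)))
      _ = ∑ p ∈ P, ∑ q ∈ Q, ∑ b ∈ Z, KZ z p b * KZ z q b + ∑ p ∈ P, ∑ q ∈ Q, ∑ b ∈ V1, KZ z p b * KZ z q b +
          ∑ p ∈ P, ∑ q ∈ Q, ∑ b ∈ V2, KZ z p b * KZ z q b := by
          rw [← sum_add_distrib, ← sum_add_distrib]
          apply sum_congr rfl
          intro p _
          rw [← sum_add_distrib, ← sum_add_distrib]
          apply sum_congr rfl
          intro q _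
          exact hsplit _
      _ ≤ _ := add_le_add (add_le_add t1 t2) t3
  have b1 : (Z.card : ℝ) * L ^ 4 ≤ n / L := by
    calc (Z.card : ℝ) * L ^ 4 ≤ (n / L ^ 5) * L ^ 4 := by gcongr
      _ = n / L := by field_simp
  have b3 : L ^ 2 * D ≤ P.card * (2 * (n / L)) := by
    calc L ^ 2 * D = (n / L ^ U) * (2 * (n / L)) := by
          rw [hD]
          field_simp
          ring
      _ ≤ _ := by gcongr
  have b4 : L ^ 2 * D ≤ Q.card * (2 * (n / L)) := by
    calc L ^ 2 * D = (n / L ^ U) * (2 * (n / L)) := by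
          rw [hD]
          field_simp
          ring
      _ ≤ _ := by gcongr
  have b5 : (P.card : ℝ) * (Q.card * (c₀ * n)) ≤ P.card * (Q.card * (5 * (n / L))) := by
    have e1 := mul_le_mul_of_nonneg_left (mul_le_mul_of_nonneg_left b1 hQpos.le) hPpos.le
    have e2 := mul_le_mul_of_nonneg_left b3 hQpos.le
    have e3 := mul_le_mul_of_nonneg_left b4 hPpos.le
    nlinarith
  have b6 : c₀ * n ≤ 5 * (n / L) := le_of_mul_le_mul_left (le_of_mul_le_mul_left b5 hPpos) hQpos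
  have b7 : c₀ * L ≤ 5 := by
    have : c₀ * n * L ≤ 5 * n := by
      have := mul_le_mul_of_nonneg_right b6 hl0.le
      have e : 5 * ((n : ℝ) / L) * L = 5 * n := by field_simp
      linarith
    nlinarith
  have b8 : 6 ≤ c₀ * L := by
    rw [div_le_iff₀ hc₀] at hl2
    linarith
  linarith

end Pool.Agent.E8helper98.GB
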