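import Pool.Agent.E8helper66.GB.Stm2
import Pool.Agent.E8helper98.GB.Step

set_option autoImplicit false

/-! GB-22 (project GB of helper66): almost all multiples of three have many neighbours `b` with `2 b + 3` prime. -/

namespace Pool.Agent.E8helper98.GB

open Finset Pool.Agent.E8helper66.GB
open Pool.Agent.H373R2.T7 (lamz pz Vz)
open Pool.Agent.R521.GG (R dg)

lemma log_3 (n : ℕ) (hn : 2 ≤ n) : Real.log ((2 * n + 3 : ℕ) : ℝ) ≤ 3 * Real.log n := by
  have hn2 : (2 : ℝ) ≤ n := by exact_mod_cast hn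
  have h : ((2 * n + 3 : ℕ) : ℝ) ≤ (n : ℝ) ^ 3 := by
    push_cast
    nlinarith [mul_self_nonneg ((n : ℝ) - 2), mul_nonneg (sub_nonneg.2 hn2) (sub_nonneg.2 hn2)]
  calc Real.log ((2 * n + 3 : ℕ) : ℝ) ≤ Real.log ((n : ℝ) ^ 3) := Real.log_le_log (by positivity) h
    _ = 3 * Real.log n := by rw [Real.log_pow]; norm_num

lemma vm3 (n b : ℕ) (_hn : 2 ≤ n) (hb : b ≤ n) :
    0 ≤ (ArithmeticFunction.vonMangoldt (2 * b + 3) : ℝ) ∧
    (ArithmeticFunction.vonMangoldt (2 * b + 3) : ℝ) ≤ Real.log ((2 * n + 3 : ℕ) : ℝ) := by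
  refine ⟨ArithmeticFunction.vonMangoldt_nonneg, ArithmeticFunction.vonMangoldt_le_log.trans ?_⟩
  apply Real.log_le_log
  · positivity
  · have : 2 * b + 3 ≤ 2 * n + 3 := by omega
    exact_mod_cast this

lemma KL_le (n a b : ℕ) (hn : 2 ≤ n) (ha : a ≤ n) (hb : b ≤ n) : 0 ≤ KL a b ∧ KL a b ≤ 4 * Real.log n ^ 2 := by
  have hv1 : ArithmeticFunction.vonMangoldt (a + b) ≤ 2 * Real.log n := vm_le n _ hn (by omega)
  have hv2 : ArithmeticFunction.vonMangoldt (Nat.dist a b) ≤ 2 * Real.log n :=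
    vm_le n _ hn (by have := dist_le' n a b ha hb; omega)
  have h1 : 0 ≤ (ArithmeticFunction.vonMangoldt (a + b) : ℝ) := ArithmeticFunction.vonMangoldt_nonneg
  have h2 : 0 ≤ (ArithmeticFunction.vonMangoldt (Nat.dist a b) : ℝ) := ArithmeticFunction.vonMangoldt_nonneg
  unfold KL
  refine ⟨mul_nonneg h1 h2, ?_⟩
  have := mul_le_mul hv1 hv2 h2 (by linarith)
  refine this.trans (le_of_eq ?_)
  ring

lemma sum_gg_three (n : ℕ) (hn : 2 ≤ n) : ∑ b ∈ Icc 1 n, gg (2 * b + 3) ≤ 21 * (Real.sqrt n * Real.log n) := by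
  have hn2 : (2 : ℝ) ≤ n := by exact_mod_cast hn
  have e1 : ∑ b ∈ Icc 1 n, gg (2 * b + 3) = ∑ m ∈ (Icc 1 n).image (fun b => 2 * b + 3), gg m := by
    rw [sum_image]
    intro x _ y _ h
    dsimp only at h
    omega
  have e2 : ∑ m ∈ (Icc 1 n).image (fun b => 2 * b + 3), gg m ≤ ∑ m ∈ Icc 1 (2 * (2 * n)), gg m := by
    apply sum_le_sum_of_subset_of_nonneg
    · intro m hm
      rw [mem_image] at hm
      obtain ⟨b, hb, rfl⟩ := hm
      rw [mem_Icc] at hb ⊢
      omega
    · intro i _ _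
      exact gg_nonneg i
  have e3 := gg_sum (2 * n) (by omega)
  have h4 : Real.sqrt ((2 * n : ℕ) : ℝ) ≤ 3 / 2 * Real.sqrt n := by
    rw [Real.sqrt_le_left (by positivity), mul_pow, Real.sq_sqrt (by positivity)]
    push_cast
    linarith
  have hlog2 : Real.log 2 ≤ Real.log n := Real.log_le_log (by norm_num) hn2
  have h5 : Real.log ((2 * n : ℕ) : ℝ) ≤ 2 * Real.log n := by
    push_cast
    rw [Real.log_mul (by norm_num) (by positivity)]
    linarith
  have h6 : Real.sqrt ((2 * n : ℕ) : ℝ) * Real.log ((2 * n : ℕ) : ℝ) ≤ (3 / 2 * Real.sqrt n) * (2 * Real.log n) := by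
    apply mul_le_mul h4 h5 _ (by positivity)
    apply Real.log_nonneg
    push_cast
    linarith
  nlinarith

open Classical in
/-- the weighted sum over few good `b` is small -/
lemma few (n a : ℕ) (hn : 2 ≤ n) (hL1 : 1 ≤ Real.log n) (hP : 42 * Real.log n ^ 4 ≤ Real.sqrt n) (ha : a ≤ n)
    (hg : (((Icc 1 n).filter (fun b => b + 3 ≤ n ∧ R a b ∧ (2 * b + 3).Prime)).card : ℝ) ≤ n / Real.log n ^ 4) :
    ∑ b ∈ Icc 1 n, KL a b * (ArithmeticFunction.vonMangoldt (2 * b + 3) : ℝ) ≤ 18 * (n / Real.log n) := by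
  have hn2 : (2 : ℝ) ≤ n := by exact_mod_cast hn
  set L := Real.log n with hL
  have hL0 : 0 < L := by linarith
  set M := Real.log ((2 * n + 3 : ℕ) : ℝ) with hM
  have hM3 : M ≤ 3 * L := log_3 n hn
  have hpt : ∀ b ∈ Icc 1 n, KL a b * (ArithmeticFunction.vonMangoldt (2 * b + 3) : ℝ) ≤
      (if b + 3 ≤ n ∧ R a b ∧ (2 * b + 3).Prime then 12 * L ^ 3 else 0) +
      (if n < b + 3 then 12 * L ^ 3 else 0) + 6 * L ^ 2 * (gg (a + b) + gg (Nat.dist a b)) +
      4 * L ^ 2 * gg (2 * b + 3) := by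
    intro b hb
    rw [mem_Icc] at hb
    have hv := vm3 n b hn hb.2
    have hk := KL_le n a b hn ha hb.2
    have g1 := gg_nonneg (a + b)
    have g2 := gg_nonneg (Nat.dist a b)
    have g3 := gg_nonneg (2 * b + 3)
    have hv3 : (ArithmeticFunction.vonMangoldt (2 * b + 3) : ℝ) ≤ 3 * L := hv.2.trans hM3
    have hall : KL a b * (ArithmeticFunction.vonMangoldt (2 * b + 3) : ℝ) ≤ 12 * L ^ 3 := by
      have := mul_le_mul hk.2 hv3 hv.1 (by positivity)
      refine this.trans (le_of_eq ?_)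
      ring
    have p1 : 0 ≤ 6 * L ^ 2 * (gg (a + b) + gg (Nat.dist a b)) := by positivity
    have p2 : 0 ≤ 4 * L ^ 2 * gg (2 * b + 3) := by positivity
    have p3 : 0 ≤ 12 * L ^ 3 := by positivity
    by_cases h1 : b + 3 ≤ n
    · by_cases h2 : R a b
      · by_cases h3 : (2 * b + 3).Prime
        · rw [if_pos ⟨h1, h2, h3⟩]
          split_ifs <;> linarith
        · have e : gg (2 * b + 3) = ArithmeticFunction.vonMangoldt (2 * b + 3) := by
            unfold gg
            rw [if_neg (by tauto)]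
          have : KL a b * (ArithmeticFunction.vonMangoldt (2 * b + 3) : ℝ) ≤ 4 * L ^ 2 * gg (2 * b + 3) := by
            rw [e]
            exact mul_le_mul_of_nonneg_right hk.2 hv.1
          split_ifs <;> linarith
      · have e := noedge_pt n a b hn ha hb.2 h2
        have : KL a b * (ArithmeticFunction.vonMangoldt (2 * b + 3) : ℝ) ≤
            6 * L ^ 2 * (gg (a + b) + gg (Nat.dist a b)) := by
          have := mul_le_mul e hv3 hv.1 (by positivity)
          refine this.trans (le_of_eq ?_)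
          ring
        split_ifs <;> linarith
    · rw [if_pos (show n < b + 3 by omega)]
      split_ifs <;> linarith
  refine (sum_le_sum hpt).trans ?_
  rw [sum_add_distrib, sum_add_distrib, sum_add_distrib, ← mul_sum, ← mul_sum, sum_add_distrib]
  have s1 : ∑ b ∈ Icc 1 n, (if b + 3 ≤ n ∧ R a b ∧ (2 * b + 3).Prime then 12 * L ^ 3 else 0) ≤ 12 * (n / L) := by
    rw [← sum_filter, sum_const, nsmul_eq_mul]
    calc _ ≤ (n / L ^ 4) * (12 * L ^ 3) := by
          apply mul_le_mul_of_nonneg_right _ (by positivity)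
          convert hg using 3
      _ = 12 * (n / L) := by field_simp
  have s2 : ∑ b ∈ Icc 1 n, (if n < b + 3 then 12 * L ^ 3 else 0) ≤ 36 * L ^ 3 := by
    rw [← sum_filter, sum_const, nsmul_eq_mul]
    have hc : ((Icc 1 n).filter (fun b => n < b + 3)).card ≤ 3 := by
      have : (Icc 1 n).filter (fun b => n < b + 3) ⊆ Ioc (n - 3) n := by
        intro b hb
        rw [mem_filter, mem_Icc] at hb
        rw [mem_Ioc]
        omega
      refine (card_le_card this).trans ?_
      rw [Nat.card_Ioc]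
      omega
    have hc' : (((Icc 1 n).filter (fun b => n < b + 3)).card : ℝ) ≤ 3 := by exact_mod_cast hc
    have := mul_le_mul_of_nonneg_right hc' (show 0 ≤ 12 * L ^ 3 by positivity)
    linarith
  have hG := gg_sum n hn
  have s3 := sum_gg_add n a ha (Icc 1 n) (subset_refl _)
  have s4 := sum_gg_dist n a ha (Icc 1 n) (subset_refl _)
  have s5 := sum_gg_three n hn
  have hs0 : 0 ≤ Real.sqrt n := Real.sqrt_nonneg _
  have hs1 : 1 ≤ Real.sqrt n := by
    rw [Real.one_le_sqrt]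
    linarith
  have s6 : 6 * L ^ 2 * (∑ b ∈ Icc 1 n, gg (a + b) + ∑ b ∈ Icc 1 n, gg (Nat.dist a b)) ≤ 126 * L ^ 3 * Real.sqrt n := by
    have : ∑ b ∈ Icc 1 n, gg (a + b) + ∑ b ∈ Icc 1 n, gg (Nat.dist a b) ≤ 21 * (Real.sqrt n * L) := by linarith
    have := mul_le_mul_of_nonneg_left this (show 0 ≤ 6 * L ^ 2 by positivity)
    refine this.trans (le_of_eq ?_)
    ring
  have s7 : 4 * L ^ 2 * ∑ b ∈ Icc 1 n, gg (2 * b + 3) ≤ 84 * L ^ 3 * Real.sqrt n := by
    have := mul_le_mul_of_nonneg_left s5 (show 0 ≤ 4 * L ^ 2 by positivity)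
    refine this.trans (le_of_eq ?_)
    ring
  have s8 : 36 * L ^ 3 ≤ 36 * L ^ 3 * Real.sqrt n := by
    have : 0 ≤ 36 * L ^ 3 := by positivity
    nlinarith
  have s9 : 252 * L ^ 3 * Real.sqrt n ≤ 6 * (n / L) := by
    have e : 6 * ((n : ℝ) / L) = 6 * n / L := by ring
    rw [e, le_div_iff₀ hL0]
    have hs : Real.sqrt n * Real.sqrt n = n := Real.mul_self_sqrt (by linarith)
    have := mul_le_mul_of_nonneg_right hP hs0
    nlinarith
  have s10 : 0 ≤ L ^ 3 * Real.sqrt n := by positivity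
  linarith

open Classical in
theorem t_BR (hW : S_ESTW) (hE3 : S_EST3) (hL3 : S_LOC3) : S_BR := by
  intro U
  obtain ⟨c₀, hc₀, hL3⟩ := hL3
  obtain ⟨B1, hB1⟩ := hW (U + 2)
  obtain ⟨B2, hB2⟩ := hE3 (U + 2)
  set B := max B1 B2 with hBd
  obtain ⟨m1, h1⟩ := hB1 (B + 1)
  obtain ⟨m2, h2⟩ := hB2 (B + 1)
  obtain ⟨m3, h3⟩ := hL3 (B + 1)
  obtain ⟨m4, h4⟩ := ev_pow 4
  obtain ⟨m5, h5⟩ := ev_log (max 2 (36 / c₀))
  refine ⟨m1 + m2 + m3 + m4 + m5 + 2, fun n hn => ?_⟩
  have hn2 : 2 ≤ n := by omega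
  have hn2' : (2 : ℝ) ≤ n := by exact_mod_cast hn2
  have hlogm := h5 n (by omega)
  have hlog : 2 ≤ Real.log n := (le_max_left _ _).trans hlogm
  have hlogc : 36 / c₀ ≤ Real.log n := (le_max_right _ _).trans hlogm
  have hP := h4 n (by omega)
  have hlogB : 1 ≤ Real.log n ^ B := one_le_pow₀ (by linarith)
  have hz1 : Real.log n ^ B ≤ (⌈Real.log n ^ B⌉₊ : ℝ) := Nat.le_ceil _
  have hz2 : (⌈Real.log n ^ B⌉₊ : ℝ) ≤ Real.log n ^ (B + 1) := by
    have := (Nat.ceil_lt_add_one (show 0 ≤ Real.log n ^ B by linarith)).le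
    rw [pow_succ]
    nlinarith
  set z := ⌈Real.log n ^ B⌉₊ with hz
  have hz0 : 1 ≤ z := by
    have : (1 : ℝ) ≤ z := hlogB.trans hz1
    exact_mod_cast this
  have hzB1 : Real.log n ^ B1 ≤ (z : ℝ) := (pow_le_pow_right₀ (by linarith) (le_max_left _ _)).trans hz1
  have hzB2 : Real.log n ^ B2 ≤ (z : ℝ) := (pow_le_pow_right₀ (by linarith) (le_max_right _ _)).trans hz1
  set L := Real.log n with hL
  have hL0 : 0 < L := by linarith
  set E := (Icc 1 n).filter (fun a => 3 ∣ a ∧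
    (((Icc 1 n).filter (fun b => b + 3 ≤ n ∧ R a b ∧ (2 * b + 3).Prime)).card : ℝ) < n / L ^ 4) with hE
  have hEs : E ⊆ Icc 1 n := filter_subset _ _
  refine ⟨E, hEs, ?_, ?_⟩
  · -- the size of `E`
    set M := Real.log ((2 * n + 3 : ℕ) : ℝ) with hM
    have hM3 : M ≤ 3 * L := log_3 n hn2
    have hM0 : 0 < M := by
      rw [hM]
      apply Real.log_pos
      have : 1 < 2 * n + 3 := by omega
      exact_mod_cast this
    -- upper bound
    have hup : ∑ a ∈ E, ∑ b ∈ Icc 1 n, KL a b * (ArithmeticFunction.vonMangoldt (2 * b + 3) : ℝ) ≤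
        E.card * (18 * (n / L)) := by
      rw [← nsmul_eq_mul, ← sum_const]
      apply sum_le_sum
      intro a ha
      rw [hE, mem_filter, mem_Icc] at ha
      exact few n a hn2 (by linarith) hP ha.1.2 (by
        refine le_trans (le_of_eq ?_) ha.2.2.le
        congr 2)
    -- first error
    have t1 := h1 n (by omega) z hzB1 hz2 (fun a => if a ∈ E then 1 else 0)
      (fun b => if b ≤ n then (ArithmeticFunction.vonMangoldt (2 * b + 3) : ℝ) / M else 0)
      (fun a => by split_ifs <;> norm_num)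
      (fun b => by
        split_ifs with hb
        · have := vm3 n b hn2 hb
          refine ⟨div_nonneg this.1 hM0.le, ?_⟩
          rw [div_le_one hM0]
          exact this.2
        · norm_num)
    have t1' : ∑ a ∈ Icc 1 n, ∑ b ∈ Icc 1 n, (if a ∈ E then (1 : ℝ) else 0) *
        (if b ≤ n then (ArithmeticFunction.vonMangoldt (2 * b + 3) : ℝ) / M else 0) * (KL a b - KZ z a b) =
        (∑ a ∈ E, ∑ b ∈ Icc 1 n, (KL a b - KZ z a b) * (ArithmeticFunction.vonMangoldt (2 * b + 3) : ℝ)) / M := by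
      have e1 : ∀ a ∈ Icc 1 n, ∑ b ∈ Icc 1 n, (if a ∈ E then (1 : ℝ) else 0) *
          (if b ≤ n then (ArithmeticFunction.vonMangoldt (2 * b + 3) : ℝ) / M else 0) * (KL a b - KZ z a b) =
          if a ∈ E then (∑ b ∈ Icc 1 n, (KL a b - KZ z a b) * (ArithmeticFunction.vonMangoldt (2 * b + 3) : ℝ)) / M
          else 0 := by
        intro a _
        split_ifs with haE
        · rw [sum_div]
          apply sum_congr rfl
          intro b hb
          rw [mem_Icc] at hb
          rw [if_pos hb.2]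
          ring
        · simp
      rw [sum_congr rfl e1, ← sum_filter, sum_div]
      apply sum_congr _ (fun _ _ => rfl)
      ext a
      rw [mem_filter]
      constructor
      · exact fun h => h.2
      · exact fun h => ⟨hEs h, h⟩
    rw [t1', abs_div, abs_of_pos hM0, div_le_iff₀ hM0] at t1
    have t2 := h2 n (by omega) z hzB2 hz2 E hEs
    have t3 : E.card * (c₀ * n) ≤ ∑ a ∈ E, ∑ b ∈ Icc 1 n, KZ z a b * lamz z (2 * b + 3) := by
      rw [← nsmul_eq_mul, ← sum_const]
      apply sum_le_sum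
      intro a ha
      exact h3 n (by omega) z hz0 hz2 a (hEs ha) (by rw [hE, mem_filter] at ha; exact ha.2.1)
    have t4 : ∑ a ∈ E, ∑ b ∈ Icc 1 n, KL a b * (ArithmeticFunction.vonMangoldt (2 * b + 3) : ℝ) =
        ∑ a ∈ E, ∑ b ∈ Icc 1 n, (KL a b - KZ z a b) * (ArithmeticFunction.vonMangoldt (2 * b + 3) : ℝ) +
        ∑ a ∈ E, ∑ b ∈ Icc 1 n, KZ z a b * (ArithmeticFunction.vonMangoldt (2 * b + 3) - lamz z (2 * b + 3)) +
        ∑ a ∈ E, ∑ b ∈ Icc 1 n, KZ z a b * lamz z (2 * b + 3) := by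
      rw [← sum_add_distrib, ← sum_add_distrib]
      apply sum_congr rfl
      intro a _
      rw [← sum_add_distrib, ← sum_add_distrib]
      apply sum_congr rfl
      intro b _
      ring
    have t5 := (abs_le.1 t1).1
    have t6 := (abs_le.1 t2).1
    have t7 : (n : ℝ) ^ 2 / L ^ (U + 2) * M ≤ 3 * (n * (n / L ^ (U + 1))) := by
      calc (n : ℝ) ^ 2 / L ^ (U + 2) * M ≤ (n : ℝ) ^ 2 / L ^ (U + 2) * (3 * L) := by gcongr
        _ = 3 * (n * (n / L ^ (U + 1))) := by
            field_simp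
            ring
    have t8 : (n : ℝ) ^ 2 / L ^ (U + 2) ≤ n * (n / L ^ (U + 1)) := by
      have : (n : ℝ) ^ 2 / L ^ (U + 2) ≤ (n : ℝ) ^ 2 / L ^ (U + 1) := by
        apply div_le_div_of_nonneg_left (by positivity) (by positivity)
        exact pow_le_pow_right₀ (by linarith) (by omega)
      refine this.trans (le_of_eq ?_)
      ring
    have t9 : (E.card : ℝ) * (c₀ * n) ≤ E.card * (18 * (n / L)) + 4 * (n * (n / L ^ (U + 1))) := by linarith
    have hn0 : (0 : ℝ) < n := by linarith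
    have t10 : (E.card : ℝ) * c₀ ≤ E.card * (18 / L) + 4 * (n / L ^ (U + 1)) := by
      have e : ((E.card : ℝ) * (18 / L) + 4 * (n / L ^ (U + 1))) * n =
          E.card * (18 * (n / L)) + 4 * (n * (n / L ^ (U + 1))) := by ring
      have e2 : (E.card : ℝ) * c₀ * n ≤ (E.card * (18 / L) + 4 * (n / L ^ (U + 1))) * n := by
        rw [e]
        linarith
      exact le_of_mul_le_mul_right e2 hn0
    have t11 : 18 / L ≤ c₀ / 2 := by
      rw [div_le_div_iff₀ hL0 (by norm_num)]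
      rw [div_le_iff₀ hc₀] at hlogc
      linarith
    have t12 : (E.card : ℝ) * (18 / L) ≤ E.card * (c₀ / 2) := mul_le_mul_of_nonneg_left t11 (by positivity)
    have t13 : (E.card : ℝ) * c₀ ≤ 8 * (n / L ^ (U + 1)) := by linarith
    have t14 : 8 * ((n : ℝ) / L ^ (U + 1)) ≤ c₀ * (n / L ^ U) := by
      have e : 8 * ((n : ℝ) / L ^ (U + 1)) = (8 / L) * (n / L ^ U) := by
        field_simp
        ring
      rw [e]
      apply mul_le_mul_of_nonneg_right _ (by positivity)
      rw [div_le_iff₀ hL0]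
      rw [div_le_iff₀ hc₀] at hlogc
      linarith
    have t15 : c₀ * (E.card : ℝ) ≤ c₀ * (n / L ^ U) := by linarith
    exact le_of_mul_le_mul_left t15 hc₀
  · intro a ha haE h3a
    by_contra hcon
    rw [not_le] at hcon
    apply haE
    rw [hE, mem_filter]
    refine ⟨ha, h3a, ?_⟩
    refine lt_of_le_of_lt (le_of_eq ?_) hcon
    congr 2

end Pool.Agent.E8helper98.GB
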