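import Pool.Agent.E8helper98.GB.Br

set_option autoImplicit false

/-! GB-19 (project GB of helper66): almost the whole class of almost every vertex is at distance two. -/

namespace Pool.Agent.E8helper98.GB

open Finset Pool.Agent.E8helper66.GB
open Pool.Agent.H373R2.T7 (lamz pz Vz)
open Pool.Agent.R521.GG (R dg)

/-- the correlation of the error with a row of the model -/
noncomputable def hh (z n a x : ℕ) : ℝ := ∑ b ∈ Icc 1 n, (KL a b - KZ z a b) * KZ z x b

/-- the weighted estimate for an indicator function on the left -/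
lemma estw_ind (z n : ℕ) (D : ℝ) (hW : ∀ f g : ℕ → ℝ, (∀ a, 0 ≤ f a ∧ f a ≤ 1) → (∀ b, 0 ≤ g b ∧ g b ≤ 1) →
    |∑ a ∈ Icc 1 n, ∑ b ∈ Icc 1 n, f a * g b * (KL a b - KZ z a b)| ≤ D) (A : Finset ℕ) (hA : A ⊆ Icc 1 n)
    (c : ℝ) (hc : 0 < c) (g : ℕ → ℝ) (hg : ∀ b ∈ Icc 1 n, 0 ≤ g b ∧ g b ≤ c) :
    |∑ a ∈ A, ∑ b ∈ Icc 1 n, (KL a b - KZ z a b) * g b| ≤ c * D := by
  classical
  have t1 := hW (fun a => if a ∈ A then 1 else 0) (fun b => if b ∈ Icc 1 n then g b / c else 0)
      (fun a => by split_ifs <;> norm_num)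
      (fun b => by
        split_ifs with hb
        · have := hg b hb
          exact ⟨div_nonneg this.1 hc.le, (div_le_one hc).2 this.2⟩
        · norm_num)
  have e : ∑ a ∈ Icc 1 n, ∑ b ∈ Icc 1 n, (if a ∈ A then (1 : ℝ) else 0) *
        (if b ∈ Icc 1 n then g b / c else 0) * (KL a b - KZ z a b) =
        (∑ a ∈ A, ∑ b ∈ Icc 1 n, (KL a b - KZ z a b) * g b) / c := by
    have e1 : ∀ a ∈ Icc 1 n, ∑ b ∈ Icc 1 n, (if a ∈ A then (1 : ℝ) else 0) *
          (if b ∈ Icc 1 n then g b / c else 0) * (KL a b - KZ z a b) =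
          if a ∈ A then (∑ b ∈ Icc 1 n, (KL a b - KZ z a b) * g b) / c else 0 := by
      intro a _
      split_ifs with haE
      · rw [sum_div]
        apply sum_congr rfl
        intro b _
        ring
      · simp
    rw [sum_congr rfl e1, ← sum_filter, sum_div]
    apply sum_congr _ (fun _ _ => rfl)
    ext a
    rw [mem_filter]
    constructor
    · exact fun h => h.2
    · exact fun h => ⟨hA h, h⟩
  rw [e, abs_div, abs_of_pos hc, div_le_iff₀ hc] at t1
  linarith

/-- no common neighbours: the product of the weights is small -/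
lemma noedge2_pt (n a x b : ℕ) (hn : 2 ≤ n) (ha : a ≤ n) (hx : x ≤ n) (hb : b ≤ n) (h : ¬ (R a b ∧ R x b)) :
    KL a b * KL x b ≤ 8 * Real.log n ^ 3 * (gg (a + b) + gg (Nat.dist a b) + (gg (x + b) + gg (Nat.dist x b))) := by
  have g1 := gg_nonneg (a + b)
  have g2 := gg_nonneg (Nat.dist a b)
  have g3 := gg_nonneg (x + b)
  have g4 := gg_nonneg (Nat.dist x b)
  have ka := KL_le n a b hn ha hb
  have kx := KL_le n x b hn hx hb
  have hn2 : (2 : ℝ) ≤ n := by exact_mod_cast hn
  have hL : 0 ≤ Real.log n := Real.log_nonneg (by linarith)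
  by_cases h1 : R a b
  · have h2 : ¬ R x b := fun h2 => h ⟨h1, h2⟩
    have e := noedge_pt n x b hn hx hb h2
    calc KL a b * KL x b ≤ (4 * Real.log n ^ 2) * (2 * Real.log n * (gg (x + b) + gg (Nat.dist x b))) :=
          mul_le_mul ka.2 e kx.1 (by positivity)
      _ = 8 * Real.log n ^ 3 * (gg (x + b) + gg (Nat.dist x b)) := by ring
      _ ≤ _ := by
          apply mul_le_mul_of_nonneg_left _ (by positivity)
          linarith
  · have e := noedge_pt n a b hn ha hb h1
    calc KL a b * KL x b ≤ (2 * Real.log n * (gg (a + b) + gg (Nat.dist a b))) * (4 * Real.log n ^ 2) :=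
          mul_le_mul e kx.2 kx.1 (by positivity)
      _ = 8 * Real.log n ^ 3 * (gg (a + b) + gg (Nat.dist a b)) := by ring
      _ ≤ _ := by
          apply mul_le_mul_of_nonneg_left _ (by positivity)
          linarith

lemma noedge2 (n a x : ℕ) (hn : 2 ≤ n) (hL1 : 1 ≤ Real.log n) (hP : 42 * Real.log n ^ 5 ≤ Real.sqrt n)
    (ha : a ≤ n) (hx : x ≤ n) (X : Finset ℕ) (hX : X ⊆ Icc 1 n) (h : ∀ b ∈ X, ¬ (R a b ∧ R x b)) :
    ∑ b ∈ X, KL a b * KL x b ≤ 8 * (n / Real.log n) := by
  have hn2 : (2 : ℝ) ≤ n := by exact_mod_cast hn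
  have hL0 : 0 < Real.log n := by linarith
  have hG := gg_sum n hn
  have s3 := sum_gg_add n a ha X hX
  have s4 := sum_gg_dist n a ha X hX
  have s5 := sum_gg_add n x hx X hX
  have s6 := sum_gg_dist n x hx X hX
  have hs0 : 0 ≤ Real.sqrt n := Real.sqrt_nonneg _
  calc ∑ b ∈ X, KL a b * KL x b ≤
        ∑ b ∈ X, 8 * Real.log n ^ 3 * (gg (a + b) + gg (Nat.dist a b) + (gg (x + b) + gg (Nat.dist x b))) := by
        apply sum_le_sum
        intro b hb
        have hb' := hX hb
        rw [mem_Icc] at hb'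
        exact noedge2_pt n a x b hn ha hx hb'.2 (h b hb)
    _ = 8 * Real.log n ^ 3 * (∑ b ∈ X, gg (a + b) + ∑ b ∈ X, gg (Nat.dist a b) +
        (∑ b ∈ X, gg (x + b) + ∑ b ∈ X, gg (Nat.dist x b))) := by
        rw [← mul_sum, sum_add_distrib, sum_add_distrib, sum_add_distrib]
    _ ≤ 8 * Real.log n ^ 3 * (42 * (Real.sqrt n * Real.log n)) := by
        apply mul_le_mul_of_nonneg_left _ (by positivity)
        linarith
    _ = 8 * ((42 * Real.log n ^ 5) * Real.sqrt n / Real.log n) := by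
        field_simp
    _ ≤ 8 * (Real.sqrt n * Real.sqrt n / Real.log n) := by gcongr
    _ = 8 * (n / Real.log n) := by rw [Real.mul_self_sqrt (by linarith)]

open Classical in
theorem t_TWO (hW : S_ESTW) (hLOC : S_LOC) : S_TWO := by
  intro U
  obtain ⟨c₀, hc₀, hLOC⟩ := hLOC
  obtain ⟨B, hB⟩ := hW (2 * U + 4)
  obtain ⟨m1, h1⟩ := hB (B + 1)
  obtain ⟨m2, h2⟩ := hLOC (B + 1)
  obtain ⟨m3, h3⟩ := lamz_le_log (B + 1)
  obtain ⟨m4, h4⟩ := ev_pow 5
  obtain ⟨m5, h5⟩ := ev_log (max 2 (22 / c₀))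
  refine ⟨m1 + m2 + m3 + m4 + m5 + 2, fun n hn => ?_⟩
  have hn2 : 2 ≤ n := by omega
  have hn2' : (2 : ℝ) ≤ n := by exact_mod_cast hn2
  have hn0 : (0 : ℝ) < n := by linarith
  have hlogm := h5 n (by omega)
  have hlog : 2 ≤ Real.log n := (le_max_left _ _).trans hlogm
  have hlogc : 22 / c₀ ≤ Real.log n := (le_max_right _ _).trans hlogm
  have hP := h4 n (by omega)
  have hlogB : 1 ≤ Real.log n ^ B := one_le_pow₀ (by linarith)
  have hz1 : Real.log n ^ B ≤ (⌈Real.log n ^ B⌉₊ : ℝ) := Nat.le_ceil _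
  have hz2 : (⌈Real.log n ^ B⌉₊ : ℝ) ≤ Real.log n ^ (B + 1) := by
    have := (Nat.ceil_lt_add_one (show 0 ≤ Real.log n ^ B by linarith)).le
    rw [pow_succ]
    nlinarith
  set z := ⌈Real.log n ^ B⌉₊ with hz
  have hz0 : 1 ≤ z := by
    have : (1 : ℝ) ≤ z := hlogB.trans hz1
    exact_mod_cast this
  have hl := h3 n (by omega) z hz0 hz2
  have hW' := h1 n (by omega) z hz1 hz2
  have hLoc := (h2 n (by omega) z hz0 hz2).2
  have k1 : ∀ a b : ℕ, 0 ≤ KZ z a b ∧ KZ z a b ≤ Real.log n ^ 2 := by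
    intro a b
    unfold KZ
    have e1 := hl (a + b)
    have e2 := hl (Nat.dist a b)
    refine ⟨mul_nonneg e1.1 e2.1, ?_⟩
    rw [sq]
    exact mul_le_mul e1.2 e2.2 e2.1 (by linarith)
  set L := Real.log n with hL
  have hL0 : 0 < L := by linarith
  set D := (n : ℝ) ^ 2 / L ^ (2 * U + 4) with hD
  set bad : ℕ → Finset ℕ := fun a => (Icc 1 n).filter (fun x => hh z n a x < - (n / L)) with hbad
  set E := (Icc 1 n).filter (fun a => (n : ℝ) / L ^ (U + 1) < (bad a).card) with hE
  have hEs : E ⊆ Icc 1 n := filter_subset _ _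
  -- for each `x` few `a`
  have hcol : ∀ x ∈ Icc 1 n, (((Icc 1 n).filter (fun a => hh z n a x < - (n / L))).card : ℝ) ≤ n / L ^ (2 * U + 1) := by
    intro x _
    set A := (Icc 1 n).filter (fun a => hh z n a x < - (n / L)) with hA
    have t1 := estw_ind z n D hW' A (filter_subset _ _) (L ^ 2) (by positivity) (fun b => KZ z x b)
      (fun b _ => k1 x b)
    have t2 : ∑ a ∈ A, ∑ b ∈ Icc 1 n, (KL a b - KZ z a b) * KZ z x b ≤ A.card * (-(n / L)) := by
      rw [← nsmul_eq_mul, ← sum_const]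
      apply sum_le_sum
      intro a ha
      rw [hA, mem_filter] at ha
      exact ha.2.le
    have t3 := (abs_le.1 t1).1
    have t4 : A.card * ((n : ℝ) / L) ≤ L ^ 2 * D := by linarith
    have t5 : L ^ 2 * D = (n / L ^ (2 * U + 1)) * (n / L) := by
      rw [hD]
      field_simp
      ring
    rw [t5] at t4
    exact le_of_mul_le_mul_right t4 (by positivity)
  -- few exceptional `a`
  have hdouble : ∑ a ∈ Icc 1 n, ((bad a).card : ℝ) =
      ∑ x ∈ Icc 1 n, (((Icc 1 n).filter (fun a => hh z n a x < - (n / L))).card : ℝ) := by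
    have e1 : ∀ a, ((bad a).card : ℝ) = ∑ x ∈ Icc 1 n, if hh z n a x < - (n / L) then (1 : ℝ) else 0 := by
      intro a
      rw [hbad, ← sum_filter, sum_const, nsmul_eq_mul, mul_one]
    have e2 : ∀ x, (((Icc 1 n).filter (fun a => hh z n a x < - (n / L))).card : ℝ) =
        ∑ a ∈ Icc 1 n, if hh z n a x < - (n / L) then (1 : ℝ) else 0 := by
      intro x
      rw [← sum_filter, sum_const, nsmul_eq_mul, mul_one]
    simp only [e1, e2]
    exact sum_comm
  have hEc : (E.card : ℝ) ≤ n / L ^ U := by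
    have t1 : (E.card : ℝ) * (n / L ^ (U + 1)) ≤ ∑ a ∈ Icc 1 n, ((bad a).card : ℝ) := by
      calc (E.card : ℝ) * (n / L ^ (U + 1)) = ∑ a ∈ E, (n : ℝ) / L ^ (U + 1) := by rw [sum_const, nsmul_eq_mul]
        _ ≤ ∑ a ∈ E, ((bad a).card : ℝ) := by
            apply sum_le_sum
            intro a ha
            rw [hE, mem_filter] at ha
            exact ha.2.le
        _ ≤ _ := by
            apply sum_le_sum_of_subset_of_nonneg hEs
            intro i _ _
            positivity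
    have t2 : ∑ x ∈ Icc 1 n, (((Icc 1 n).filter (fun a => hh z n a x < - (n / L))).card : ℝ) ≤
        n * (n / L ^ (2 * U + 1)) := by
      calc _ ≤ ∑ x ∈ Icc 1 n, (n : ℝ) / L ^ (2 * U + 1) := sum_le_sum hcol
        _ = _ := by rw [sum_const, nsmul_eq_mul, Nat.card_Icc]; simp
    rw [hdouble] at t1
    have t3 := t1.trans t2
    have t4 : n * ((n : ℝ) / L ^ (2 * U + 1)) = (n / L ^ U) * (n / L ^ (U + 1)) := by
      field_simp
      ring
    rw [t4] at t3
    exact le_of_mul_le_mul_right t3 (by positivity)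
  refine ⟨E, hEs, hEc, fun X hX hXc a ha haE S hS hSame hSc => ?_⟩
  have hbada : ((bad a).card : ℝ) ≤ n / L ^ (U + 1) := by
    by_contra hcon
    rw [not_le] at hcon
    apply haE
    rw [hE, mem_filter]
    exact ⟨ha, hcon⟩
  have ha' := ha
  rw [mem_Icc] at ha'
  by_contra hcon
  set S' := S \ bad a with hS'
  have hS's : S' ⊆ Icc 1 n := sdiff_subset.trans hS
  have hS'c : (n : ℝ) / L ^ U / 2 ≤ S'.card := by
    have t1 : S.card ≤ S'.card + (bad a).card := by
      have := card_le_card (show S ⊆ S' ∪ bad a by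
        intro x hx
        rw [mem_union, hS', mem_sdiff]
        tauto)
      exact this.trans (card_union_le _ _)
    have t2 : (S.card : ℝ) ≤ S'.card + (bad a).card := by exact_mod_cast t1
    have t3 : (n : ℝ) / L ^ (U + 1) ≤ n / L ^ U / 2 := by
      have e : (n : ℝ) / L ^ (U + 1) = (n / L ^ U) / L := by
        field_simp
        ring
      rw [e]
      exact div_le_div_of_nonneg_left (by positivity) (by norm_num) hlog
    linarith
  have hS'pos : 0 < (S'.card : ℝ) := lt_of_lt_of_le (by positivity) hS'c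
  -- lower bound for one `x`
  have hx1 : ∀ x ∈ S', c₀ * n - 5 * (n / L) ≤ ∑ b ∈ X, KL a b * KZ z x b := by
    intro x hx
    rw [hS', mem_sdiff] at hx
    have hxI := hS hx.1
    have t1 := hLoc a ha x hxI (hSame x hx.1)
    have t2 : -(n / L) ≤ hh z n a x := by
      by_contra hc
      rw [not_le] at hc
      apply hx.2
      rw [hbad, mem_filter]
      exact ⟨hxI, hc⟩
    have t3 : ∑ b ∈ Icc 1 n, KL a b * KZ z x b = hh z n a x + ∑ b ∈ Icc 1 n, KZ z a b * KZ z x b := by
      unfold hh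
      rw [← sum_add_distrib]
      apply sum_congr rfl
      intro b _
      ring
    have t4 : ∑ b ∈ Icc 1 n, KL a b * KZ z x b = ∑ b ∈ Icc 1 n \ X, KL a b * KZ z x b + ∑ b ∈ X, KL a b * KZ z x b :=
      (sum_sdiff hX).symm
    have t5 : ∑ b ∈ Icc 1 n \ X, KL a b * KZ z x b ≤ 4 * (n / L) := by
      calc ∑ b ∈ Icc 1 n \ X, KL a b * KZ z x b ≤ ∑ b ∈ Icc 1 n \ X, 4 * L ^ 2 * L ^ 2 := by
            apply sum_le_sum
            intro b hb
            rw [mem_sdiff, mem_Icc] at hb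
            exact mul_le_mul (KL_le n a b hn2 ha'.2 hb.1.2).2 (k1 x b).2 (k1 x b).1 (by positivity)
        _ = ((Icc 1 n \ X).card : ℝ) * (4 * L ^ 2 * L ^ 2) := by rw [sum_const, nsmul_eq_mul]
        _ ≤ (n / L ^ 5) * (4 * L ^ 2 * L ^ 2) := by gcongr
        _ = 4 * (n / L) := by field_simp
    linarith
  have hsum1 : S'.card * (c₀ * n - 5 * (n / L)) ≤ ∑ x ∈ S', ∑ b ∈ X, KL a b * KZ z x b := by
    rw [← nsmul_eq_mul, ← sum_const]
    exact sum_le_sum hx1
  -- replace the model for `x`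
  have t1 := estw_ind z n D hW' S' hS's (4 * L ^ 2) (by positivity) (fun b => if b ∈ X then KL a b else 0)
    (fun b hb => by
      rw [mem_Icc] at hb
      have := KL_le n a b hn2 ha'.2 hb.2
      split_ifs
      · exact this
      · exact ⟨le_rfl, by positivity⟩)
  have t2 : ∑ x ∈ S', ∑ b ∈ Icc 1 n, (KL x b - KZ z x b) * (if b ∈ X then KL a b else 0) =
      ∑ x ∈ S', ∑ b ∈ X, KL a b * KL x b - ∑ x ∈ S', ∑ b ∈ X, KL a b * KZ z x b := by
    rw [← sum_sub_distrib]
    apply sum_congr rfl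
    intro x _
    rw [← sum_sub_distrib]
    have : ∀ b ∈ Icc 1 n, (KL x b - KZ z x b) * (if b ∈ X then KL a b else 0) =
        if b ∈ X then KL a b * KL x b - KL a b * KZ z x b else 0 := by
      intro b _
      split_ifs <;> ring
    rw [sum_congr rfl this, ← sum_filter]
    apply sum_congr _ (fun _ _ => rfl)
    ext b
    rw [mem_filter]
    constructor
    · exact fun h => h.2
    · exact fun h => ⟨hX h, h⟩
  rw [t2] at t1
  have t3 := (abs_le.1 t1).1
  have hup : ∑ x ∈ S', ∑ b ∈ X, KL a b * KL x b ≤ S'.card * (8 * (n / L)) := by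
    rw [← nsmul_eq_mul, ← sum_const]
    apply sum_le_sum
    intro x hx
    have hxI := hS's hx
    rw [mem_Icc] at hxI
    have hxS : x ∈ S := by
      rw [hS', mem_sdiff] at hx
      exact hx.1
    exact noedge2 n a x hn2 (by linarith) hP ha'.2 hxI.2 X hX (fun b hb hR => hcon ⟨x, hxS, b, hb, hR.1, hR.2⟩)
  have t4 : 4 * L ^ 2 * D ≤ S'.card * (8 * (n / L)) := by
    have e1 : 4 * L ^ 2 * D = (n / L ^ U / 2) * (8 * (n / L ^ (U + 2))) := by
      rw [hD]
      field_simp
      ring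
    rw [e1]
    have e2 : (n : ℝ) / L ^ (U + 2) ≤ n / L := by
      apply div_le_div_of_nonneg_left hn0.le hL0
      calc L = L ^ 1 := (pow_one L).symm
        _ ≤ L ^ (U + 2) := pow_le_pow_right₀ (by linarith) (by omega)
    gcongr
  have t5 : (S'.card : ℝ) * (c₀ * n) ≤ S'.card * (21 * (n / L)) := by linarith
  have t6 : c₀ * n ≤ 21 * (n / L) := le_of_mul_le_mul_left t5 hS'pos
  have t7 : c₀ * L ≤ 21 := by
    have : c₀ * n * L ≤ 21 * n := by
      have := mul_le_mul_of_nonneg_right t6 hL0.le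
      have e : 21 * ((n : ℝ) / L) * L = 21 * n := by field_simp
      linarith
    nlinarith
  have t8 : 22 ≤ c₀ * L := by
    rw [div_le_iff₀ hc₀] at hlogc
    linarith
  linarith

end Pool.Agent.E8helper98.GB
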